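import Pool.Agent.Helper37.CX.Dev
import Pool.Agent.Helper37.CH.Loc

/-!
# The complex is locally a space of nonpositive curvature
-/

set_option autoImplicit false

namespace Pool.Agent.Helper37.CX

open Pool.Agent.Helper3.FJ Real Relation Pool.Agent.Helper37.MG Pool.Agent.Helper37.CH

variable {V : Type} {X : Cpx V} {ℓ : V → V → ℝ}

theorem pl_add (r α β : ℝ) : pl r (α + β) = pl r α * pl 1 β := by
  unfold pl
  apply Complex.ext
  · simp only [Complex.mul_re]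
    rw [Real.cos_add]; ring
  · simp only [Complex.mul_im]
    rw [Real.sin_add]; ring

theorem pl_real (r : ℝ) : pl r 0 = (r : ℂ) := by
  unfold pl
  apply Complex.ext <;> simp

theorem pl_neg_mul (r ψ : ℝ) : pl r ψ * pl 1 (-ψ) = pl r 0 := by
  rw [← pl_add, add_neg_cancel]

/-- Stewart's identity in the plane. -/
theorem stewart_plane (p x y z : ℂ) (t : ℝ) (hz : z = (1 - t : ℝ) * x + (t : ℝ) * y) :
    ‖p - z‖ ^ 2 = (1 - t) * ‖p - x‖ ^ 2 + t * ‖p - y‖ ^ 2 - t * (1 - t) * ‖x - y‖ ^ 2 := by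
  subst hz
  simp only [← Complex.normSq_eq_norm_sq, Complex.normSq_apply, Complex.sub_re, Complex.sub_im,
    Complex.add_re, Complex.add_im, Complex.re_ofReal_mul, Complex.im_ofReal_mul]
  ring

/-- Polar coordinates of the points of a segment. -/
theorem exists_polar {r s t φ : ℝ} (hr : 0 < r) (hs : 0 < s) (ht0 : 0 < t) (ht1 : t < 1)
    (h0 : 0 < φ) (h1 : φ < π) : ∃ ρ ψ : ℝ, 0 ≤ ρ ∧ 0 ≤ ψ ∧ ψ < φ ∧
      ((1 - t : ℝ) : ℂ) * pl r 0 + (t : ℝ) * pl s φ = pl ρ ψ := by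
  obtain ⟨z, hz⟩ : ∃ z, z = ((1 - t : ℝ) : ℂ) * pl r 0 + (t : ℝ) * pl s φ := ⟨_, rfl⟩
  have hsn : 0 < sin φ := Real.sin_pos_of_pos_of_lt_pi h0 h1
  have hre : z.re = (1 - t) * r + t * (s * cos φ) := by
    rw [hz]
    simp only [Complex.add_re, Complex.re_ofReal_mul, pl, Real.cos_zero, mul_one]
  have him : z.im = t * (s * sin φ) := by
    rw [hz]
    simp only [Complex.add_im, Complex.im_ofReal_mul, pl, Real.sin_zero, mul_zero, zero_add]
  have him0 : 0 < z.im := by rw [him]; positivity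
  have hz0 : z ≠ 0 := fun h => by rw [h] at him0; exact lt_irrefl _ him0
  have hn : 0 < ‖z‖ := norm_pos_iff.2 hz0
  have hc := Complex.cos_arg hz0
  have hs' := Complex.sin_arg z
  have e1 : ‖z‖ * cos (Complex.arg z) = z.re := by rw [hc]; field_simp
  have e2 : ‖z‖ * sin (Complex.arg z) = z.im := by rw [hs']; field_simp
  have e3 : 0 < ‖z‖ * sin (φ - Complex.arg z) := by
    rw [Real.sin_sub]
    have : ‖z‖ * (sin φ * cos (Complex.arg z) - cos φ * sin (Complex.arg z)) =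
        sin φ * (‖z‖ * cos (Complex.arg z)) - cos φ * (‖z‖ * sin (Complex.arg z)) := by ring
    rw [this, e1, e2, hre, him]
    have h2 : sin φ * ((1 - t) * r + t * (s * cos φ)) - cos φ * (t * (s * sin φ)) =
        (1 - t) * r * sin φ := by ring
    rw [h2]
    have : 0 < 1 - t := by linarith
    positivity
  have e4 : 0 < sin (φ - Complex.arg z) := by
    rcases lt_or_ge 0 (sin (φ - Complex.arg z)) with h | h
    · exact h
    · have := mul_nonpos_of_nonneg_of_nonpos hn.le h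
      linarith
  have e5 : 0 ≤ Complex.arg z := Complex.arg_nonneg_iff.2 him0.le
  refine ⟨‖z‖, Complex.arg z, hn.le, e5, ?_, ?_⟩
  · by_contra h2
    push Not at h2
    have h3 := Complex.arg_le_pi z
    have : sin (φ - Complex.arg z) ≤ 0 :=
      Real.sin_nonpos_of_nonpos_of_neg_pi_le (by linarith) (by linarith)
    linarith
  · rw [← hz]
    unfold pl
    rw [e1, e2]

variable {hX : Cx X ℓ} {K : ℝ} {v a b : V}

/-- Distances between the base point of an unfolding map and other points. -/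
theorem dist_le_base (hK : Lip X ℓ K) {z p : Sp hX} {c d : V} {ρ ζ r α : ℝ}
    (hz : Pol X ℓ z.1 v c d ρ ζ) (hp : Pol X ℓ p.1 v a b r α)
    (hs : K * ‖pl ρ 0 - pl r (F (LE X v) (Lθ ℓ v) c d ζ (a, b, α))‖ ≤ z.1 v) :
    dist z p ≤ ‖pl ρ 0 - pl r (F (LE X v) (Lθ ℓ v) c d ζ (a, b, α))‖ := by
  have hG := link_wg hX v
  obtain ⟨f, hf⟩ : ∃ f, f = F (LE X v) (Lθ ℓ v) c d ζ (a, b, α) := ⟨_, rfl⟩
  have habs : |f| ≤ π := hf ▸ F_abs_le hG hz.inn.tri hz.α0 hz.α1 hp.pt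
  rw [← hf] at hs ⊢
  have e1 : ‖pl ρ 0 - pl r f‖ = ‖pl ρ 0 - pl r |f|‖ := by
    refine norm_pl_congr ?_
    rcases abs_choice f with h | h
    · left; rw [h]
    · right; rw [h]; ring
  rcases lt_or_eq_of_le habs with h | h
  · have h1 := F_reach hG hz.inn.tri hz.α0 hz.α1 hp.pt (hf ▸ h)
    rw [← hf] at h1
    rw [e1] at hs ⊢
    exact dist_le_of_ac hK hz hp h1 h hs
  · rw [e1, norm_pl_pi hz.r0 hp.r0 (by rw [h, zero_sub, Real.cos_neg, Real.cos_pi])]
    exact dist_le_add hz hp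

/-- The conditions of `LocCat`. -/
def Good (x y z : Sp hX) (ε t : ℝ) : Prop :=
  dist x z = t * dist x y ∧ dist z y = (1 - t) * dist x y ∧
      ∀ p : Sp hX, dist p x < ε → dist p y < ε →
        dist p z ^ 2 ≤ (1 - t) * dist p x ^ 2 + t * dist p y ^ 2 - t * (1 - t) * dist x y ^ 2

theorem Good.symm {x y z : Sp hX} {ε t : ℝ} (h : Good y x z ε (1 - t)) : Good x y z ε t := by
  obtain ⟨h1, h2, h3⟩ := h
  rw [dist_comm y x] at h1 h2
  refine ⟨?_, ?_, fun p h4 h5 => ?_⟩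
  · rw [dist_comm, h2]; ring
  · rw [dist_comm, h1]
  · have := h3 p h5 h4
    rw [dist_comm y x] at this
    linarith

theorem good_zero (x y : Sp hX) (ε : ℝ) : Good x y x ε 0 :=
  ⟨by rw [dist_self, zero_mul], by ring, fun p _ _ => by linarith⟩

/-- All points near a point which is not far from the vertex have polar coordinates. -/
theorem exists_pol_of_pos (x : Sp hX) (hx : 0 < x.1 v) : ∃ a b r α, Pol X ℓ x.1 v a b r α := by
  obtain ⟨a, b, c, h⟩ := x.2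
  obtain ⟨d, e, h1, -⟩ := h.cases hx hX.metric.symm x.1
  obtain ⟨r, α, h2⟩ := exists_pol hX.metric h1
  exact ⟨d, e, r, α, h2⟩

/-- The point `z` of the segment, if there is an unfolding map based at `z`. -/
theorem good_of_base (hK : Lip X ℓ K) {ε t : ℝ} (hε : K * ε ≤ 1 / 12) (ht0 : 0 ≤ t) (ht1 : t ≤ 1)
    {x y z : Sp hX} (hxy : dist x y < ε) (hv : 1 / 4 ≤ x.1 v) {c d : V} {ρ ζ : ℝ}
    (hz : Pol X ℓ z.1 v c d ρ ζ) (hzv : 1 / 12 ≤ z.1 v)
    (hΦ : pl ρ 0 = (1 - t : ℝ) * Phi X ℓ v (F (LE X v) (Lθ ℓ v) c d ζ) x.1 +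
      (t : ℝ) * Phi X ℓ v (F (LE X v) (Lθ ℓ v) c d ζ) y.1) : Good x y z ε t := by
  have hM := hX.metric
  obtain ⟨G, hG⟩ : ∃ G, G = F (LE X v) (Lθ ℓ v) c d ζ := ⟨_, rfl⟩
  have hF : Fld (LE X v) (Lθ ℓ v) G := by
    rw [hG]
    exact fld_F (link_wg hX v) hz.inn.tri hz.α0 hz.α1
  rw [← hG] at hΦ
  have hK0 := hK.1
  have hd0 : 0 ≤ dist x y := dist_nonneg
  have hε0 : 0 < ε := by linarith
  -- points near `x` and `y`
  have hnear : ∀ p : Sp hX, dist p x < ε → dist p y < ε →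
      dist p z ≤ ‖Phi X ℓ v G p.1 - pl ρ 0‖ ∧ ‖Phi X ℓ v G p.1 - Phi X ℓ v G x.1‖ ≤ dist p x ∧
      ‖Phi X ℓ v G p.1 - Phi X ℓ v G y.1‖ ≤ dist p y := by
    intro p h1 h2
    have h3 := (abs_le.1 (dist_lip hK p x v)).1
    have h4 : K * dist p x < 1 / 12 := by
      have := mul_lt_mul_of_pos_left h1 hK0
      linarith
    have h4' : K * dist p y < 1 / 12 := by
      have := mul_lt_mul_of_pos_left h2 hK0
      linarith
    have h5 : 1 / 6 < p.1 v := by linarith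
    have h6 := Phi_lip hK hF (x := p) (y := x) (by linarith)
    have h7 := Phi_lip hK hF (x := p) (y := y) (by linarith)
    refine ⟨?_, h6, h7⟩
    obtain ⟨a, b, r, α, hp⟩ := exists_pol_of_pos p (by linarith)
    have h8 := Phi_eq hM hF hp
    have h9 : ‖Phi X ℓ v G p.1 - pl ρ 0‖ < ε := by
      have e1 : Phi X ℓ v G p.1 - pl ρ 0 = ((1 - t : ℝ) : ℂ) * (Phi X ℓ v G p.1 -
          Phi X ℓ v G x.1) + ((t : ℝ) : ℂ) * (Phi X ℓ v G p.1 - Phi X ℓ v G y.1) := by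
        rw [hΦ]; push_cast; ring
      rw [e1]
      refine (norm_add_le _ _).trans_lt ?_
      rw [norm_mul, norm_mul, Complex.norm_real, Complex.norm_real, Real.norm_eq_abs,
        Real.norm_eq_abs, abs_of_nonneg ht0, abs_of_nonneg (by linarith : (0:ℝ) ≤ 1 - t)]
      have e2 : ‖Phi X ℓ v G p.1 - Phi X ℓ v G x.1‖ < ε := h6.trans_lt h1
      have e3 : ‖Phi X ℓ v G p.1 - Phi X ℓ v G y.1‖ < ε := h7.trans_lt h2
      have e4 := mul_le_mul_of_nonneg_left e2.le (by linarith : (0:ℝ) ≤ 1 - t)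
      have e5 := mul_le_mul_of_nonneg_left e3.le ht0
      rcases eq_or_lt_of_le ht0 with h | h
      · rw [← h] at e4 e5 ⊢
        linarith
      · have := mul_lt_mul_of_pos_left e3 h
        linarith
    rw [norm_sub_rev, dist_comm]
    rw [norm_sub_rev] at h9
    rw [h8, hG] at h9 ⊢
    refine dist_le_base hK hz hp ?_
    have := mul_lt_mul_of_pos_left h9 hK0
    linarith
  have hx := hnear x (by rw [dist_self]; exact hε0) hxy
  have hy := hnear y (by rwa [dist_comm]) (by rw [dist_self]; exact hε0)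
  obtain ⟨P, hP⟩ : ∃ P, P = Phi X ℓ v G x.1 := ⟨_, rfl⟩
  obtain ⟨Q, hQ⟩ : ∃ Q, Q = Phi X ℓ v G y.1 := ⟨_, rfl⟩
  rw [← hP, ← hQ] at hx hy hΦ
  have e1 : ‖P - pl ρ 0‖ = t * ‖P - Q‖ := by
    have : P - pl ρ 0 = ((t : ℝ) : ℂ) * (P - Q) := by rw [hΦ]; push_cast; ring
    rw [this, norm_mul, Complex.norm_real, Real.norm_eq_abs, abs_of_nonneg ht0]
  have e2 : ‖Q - pl ρ 0‖ = (1 - t) * ‖P - Q‖ := by
    have : Q - pl ρ 0 = ((1 - t : ℝ) : ℂ) * (Q - P) := by rw [hΦ]; push_cast; ring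
    rw [this, norm_mul, Complex.norm_real, Real.norm_eq_abs,
      abs_of_nonneg (by linarith : (0:ℝ) ≤ 1 - t), norm_sub_rev Q P]
  have h1 := hx.1
  have h2 := hy.1
  rw [e1] at h1
  rw [e2, dist_comm] at h2
  have h3 : ‖P - Q‖ ≤ dist x y := hx.2.2
  have h4 := dist_triangle x z y
  have h5 : dist x y = ‖P - Q‖ := by linarith
  refine ⟨?_, ?_, fun p h6 h7 => ?_⟩
  · rw [h5] at h4 ⊢
    linarith
  · rw [h5] at h4 ⊢
    linarith
  · obtain ⟨h8, h9, h10⟩ := hnear p h6 h7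
    rw [← hP] at h9
    rw [← hQ] at h10
    have h11 := stewart_plane (Phi X ℓ v G p.1) P Q (pl ρ 0) t hΦ
    have h12 := pow_le_pow_left₀ dist_nonneg h8 2
    have h13 := mul_le_mul_of_nonneg_left (pow_le_pow_left₀ (norm_nonneg _) h9 2)
      (by linarith : (0:ℝ) ≤ 1 - t)
    have h14 := mul_le_mul_of_nonneg_left (pow_le_pow_left₀ (norm_nonneg _) h10 2) ht0
    rw [h5]
    linarith

/-- The point of the segment lies on the ray through `x`. -/
theorem good_ray (hK : Lip X ℓ K) {ε t : ℝ} (hε : K * ε ≤ 1 / 12) (ht0 : 0 ≤ t) (ht1 : t ≤ 1)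
    {x y : Sp hX} (hxy : dist x y < ε) (hv : 1 / 4 ≤ x.1 v) {c d : V} {r α s β : ℝ}
    (hx : Pol X ℓ x.1 v a b r α) (hy : Pol X ℓ y.1 v c d s β)
    (h0 : s * sin (F (LE X v) (Lθ ℓ v) a b α (c, d, β)) = 0)
    (h1 : 0 ≤ (1 - t) * r + t * (s * cos (F (LE X v) (Lθ ℓ v) a b α (c, d, β)))) :
    ∃ z, Good x y z ε t := by
  have hM := hX.metric
  have hK0 := hK.1
  have hF : Fld (LE X v) (Lθ ℓ v) (F (LE X v) (Lθ ℓ v) a b α) :=
    fld_F (link_wg hX v) hx.inn.tri hx.α0 hx.α1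
  have e1 := Phi_eq hM hF hx
  have e2 := Phi_eq hM hF hy
  rw [F_self] at e1
  obtain ⟨ρ, hρ⟩ : ∃ ρ, ρ = (1 - t) * r + t * (s * cos (F (LE X v) (Lθ ℓ v) a b α (c, d, β))) :=
    ⟨_, rfl⟩
  rw [← hρ] at h1
  have e3 : pl ρ 0 = (1 - t : ℝ) * Phi X ℓ v (F (LE X v) (Lθ ℓ v) a b α) x.1 +
      (t : ℝ) * Phi X ℓ v (F (LE X v) (Lθ ℓ v) a b α) y.1 := by
    rw [e1, e2]
    apply Complex.ext
    · simp only [Complex.add_re, Complex.re_ofReal_mul, pl, Real.cos_zero, mul_one]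
      exact hρ
    · simp only [Complex.add_im, Complex.im_ofReal_mul, pl, Real.sin_zero, mul_zero, zero_add]
      rw [h0, mul_zero]
  have e4 : ‖pl r α - pl ρ α‖ = t * ‖Phi X ℓ v (F (LE X v) (Lθ ℓ v) a b α) x.1 -
      Phi X ℓ v (F (LE X v) (Lθ ℓ v) a b α) y.1‖ := by
    have : ‖pl r α - pl ρ α‖ = ‖pl r 0 - pl ρ 0‖ := norm_pl_congr (Or.inl (by ring))
    rw [this, e3, ← e1]
    have : Phi X ℓ v (F (LE X v) (Lθ ℓ v) a b α) x.1 -
        ((1 - t : ℝ) * Phi X ℓ v (F (LE X v) (Lθ ℓ v) a b α) x.1 +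
        (t : ℝ) * Phi X ℓ v (F (LE X v) (Lθ ℓ v) a b α) y.1) = ((t : ℝ) : ℂ) *
        (Phi X ℓ v (F (LE X v) (Lθ ℓ v) a b α) x.1 -
          Phi X ℓ v (F (LE X v) (Lθ ℓ v) a b α) y.1) := by push_cast; ring
    rw [this, norm_mul, Complex.norm_real, Real.norm_eq_abs, abs_of_nonneg ht0]
  have hKd : K * dist x y < 1 / 12 := by
    have := mul_lt_mul_of_pos_left hxy hK0
    linarith
  have e5 := Phi_lip hK hF (x := x) (y := y) (by linarith)
  have e6 : K * ‖pl r α - pl ρ α‖ ≤ 1 / 12 := by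
    rw [e4]
    have h2 := mul_le_mul_of_nonneg_right ht1 (norm_nonneg (Phi X ℓ v (F (LE X v) (Lθ ℓ v) a b α)
      x.1 - Phi X ℓ v (F (LE X v) (Lθ ℓ v) a b α) y.1))
    rw [one_mul] at h2
    have h3 := mul_le_mul_of_nonneg_left (h2.trans e5) hK0.le
    linarith
  obtain ⟨z, hz1, -, hz3⟩ := ext_cell hK hx h1 hx.α0 hx.α1 (by linarith)
  exact ⟨z, good_of_base hK hε ht0 ht1 hxy hv hz1 (by linarith) e3⟩

/-- **The link condition implies nonpositive curvature.** -/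
theorem locCat (hK : Lip X ℓ K) : LocCat (Sp hX) (1 / (12 * K)) := by
  have hK0 := hK.1
  refine ⟨by positivity, fun x y hxy t ht0 ht1 => ?_⟩
  obtain ⟨ε, hε⟩ : ∃ ε, ε = 1 / (12 * K) := ⟨_, rfl⟩
  rw [← hε] at hxy ⊢
  change ∃ z, Good x y z ε t
  have hKε : K * ε ≤ 1 / 12 := by
    rw [hε]
    have : K * (1 / (12 * K)) = 1 / 12 := by field_simp
    exact this.le
  have hM := hX.metric
  have hKd : K * dist x y < 1 / 12 := by
    have := mul_lt_mul_of_pos_left hxy hK0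
    linarith
  obtain ⟨v, hv⟩ := exists_third x
  have hyv : 1 / 4 ≤ y.1 v := by
    have := (abs_le.1 (dist_lip hK x y v)).2
    linarith
  obtain ⟨a, b, r, α, hx⟩ := exists_pol_of_pos x (by linarith : 0 < x.1 v)
  obtain ⟨c, d, s, β, hy⟩ := exists_pol_of_pos y (by linarith : 0 < y.1 v)
  have hG := link_wg hX v
  have hyx : dist y x < ε := by rwa [dist_comm]
  have ht0' : 0 ≤ 1 - t := by linarith
  have ht1' : 1 - t ≤ 1 := by linarith
  rcases eq_or_lt_of_le ht0 with h | ht0s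
  · exact ⟨x, h ▸ good_zero x y ε⟩
  rcases eq_or_lt_of_le ht1 with h | ht1s
  · refine ⟨y, Good.symm ?_⟩
    rw [h, sub_self]
    exact good_zero y x ε
  rcases eq_or_lt_of_le hy.r0 with h | hs
  · refine good_ray hK hKε ht0 ht1 hxy (by linarith) hx hy (by rw [← h, zero_mul]) ?_
    rw [← h, zero_mul, mul_zero, add_zero]
    exact mul_nonneg ht0' hx.r0
  rcases eq_or_lt_of_le hx.r0 with h | hr
  · obtain ⟨z, hz⟩ := good_ray hK hKε ht0' ht1' hyx hyv hy hx (by rw [← h, zero_mul]) (by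
      rw [← h, zero_mul, mul_zero, add_zero]
      exact mul_nonneg (by linarith) hy.r0)
    exact ⟨z, hz.symm⟩
  rcases WG.alternative hG hx.pt hy.pt with ⟨φ, h1, h2, h3⟩ | h1
  · rcases eq_or_lt_of_le h2.nonneg with h | hφ
    · have h4 := (F_ac hG hx.inn.tri hx.α0 hx.α1 h2)
      rw [F_self, ← h] at h4
      have h5 := h4.cos Real.pi_pos.le
      rw [Real.cos_zero, zero_sub, Real.cos_neg] at h5
      have h6 := le_antisymm (Real.cos_le_one _) h5
      have h7 : sin (F (LE X v) (Lθ ℓ v) a b α (c, d, β)) = 0 := by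
        have := Real.sin_sq_add_cos_sq (F (LE X v) (Lθ ℓ v) a b α (c, d, β))
        rw [h6, one_pow] at this
        have : sin (F (LE X v) (Lθ ℓ v) a b α (c, d, β)) ^ 2 = 0 := by linarith
        exact pow_eq_zero_iff (two_ne_zero) |>.1 this
      refine good_ray hK hKε ht0 ht1 hxy (by linarith) hx hy (by rw [h7, mul_zero]) ?_
      rw [h6, mul_one]
      exact add_nonneg (mul_nonneg ht0' hr.le) (mul_nonneg ht0 hs.le)
    · obtain ⟨ρ, ψ, hρ, hψ0, hψ1, hpl⟩ := exists_polar hr hs ht0s ht1s hφ h1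
      obtain ⟨s', t', ζ, g1, g2, g3, g4, g5, g6, g7⟩ :=
        hG.geodesic hx.pt hy.pt h2 h3 h1 hψ0 hψ1
      have hF : Fld (LE X v) (Lθ ℓ v) (F (LE X v) (Lθ ℓ v) s' t' ζ) := fld_F hG g1 g2 g3.le
      have e1 := Phi_eq hM hF hx
      have e2 := Phi_eq hM hF hy
      rw [g6] at e1
      rw [g7] at e2
      have e3 : pl ρ 0 = (1 - t : ℝ) * Phi X ℓ v (F (LE X v) (Lθ ℓ v) s' t' ζ) x.1 +
          (t : ℝ) * Phi X ℓ v (F (LE X v) (Lθ ℓ v) s' t' ζ) y.1 := by
        rw [e1, e2, ← pl_neg_mul ρ ψ, ← hpl, show -ψ = 0 + -ψ by ring, pl_add r 0 (-ψ),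
          show φ - ψ = φ + -ψ by ring, pl_add s φ (-ψ), zero_add]
        ring
      have e4 := Phi_lip hK hF (x := x) (y := y) (by linarith)
      have e5 : ‖Phi X ℓ v (F (LE X v) (Lθ ℓ v) s' t' ζ) x.1 -
          Phi X ℓ v (F (LE X v) (Lθ ℓ v) s' t' ζ) y.1‖ = ‖pl r 0 - pl s φ‖ := by
        rw [e1, e2]
        exact norm_pl_congr (Or.inl (by ring))
      rw [e5] at e4
      have e6 : ‖pl r 0 - pl ρ ψ‖ = t * ‖pl r 0 - pl s φ‖ := by
        rw [← hpl]
        have : pl r 0 - ((1 - t : ℝ) * pl r 0 + (t : ℝ) * pl s φ) =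
            ((t : ℝ) : ℂ) * (pl r 0 - pl s φ) := by push_cast; ring
        rw [this, norm_mul, Complex.norm_real, Real.norm_eq_abs, abs_of_nonneg ht0]
      have e7 : K * ‖pl r 0 - pl ρ ψ‖ ≤ 1 / 12 := by
        rw [e6]
        have l1 := mul_le_mul_of_nonneg_right ht1 (norm_nonneg (pl r 0 - pl s φ))
        rw [one_mul] at l1
        have l2 := mul_le_mul_of_nonneg_left (l1.trans e4) hK0.le
        linarith
      obtain ⟨z, hz1, -, hz3⟩ := develop hK g4 ⟨g1, g2, g3.le⟩ (by linarith) x r ρ hx hρ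
        (by linarith)
      exact ⟨z, good_of_base hK hKε ht0 ht1 hxy (by linarith) hz1 (by linarith) e3⟩
  · -- all chains are long
    have hpi : ∀ {f : ℝ}, |f| = π → cos f = -1 ∧ sin f = 0 := by
      intro f hf
      rcases abs_choice f with h | h
      · rw [hf] at h
        rw [← h]
        exact ⟨Real.cos_pi, Real.sin_pi⟩
      · rw [hf] at h
        have : f = -π := by linarith
        rw [this, Real.cos_neg, Real.sin_neg, Real.cos_pi, Real.sin_pi, neg_zero]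
        exact ⟨rfl, rfl⟩
    have h2 : |F (LE X v) (Lθ ℓ v) a b α (c, d, β)| = π := by
      refine le_antisymm (F_abs_le hG hx.inn.tri hx.α0 hx.α1 hy.pt) ?_
      by_contra h3
      push Not at h3
      have := h1 _ (F_reach hG hx.inn.tri hx.α0 hx.α1 hy.pt h3)
      linarith
    have h3 : |F (LE X v) (Lθ ℓ v) c d β (a, b, α)| = π := by
      refine le_antisymm (F_abs_le hG hy.inn.tri hy.α0 hy.α1 hx.pt) ?_
      by_contra h3
      push Not at h3
      have := h1 _ ((F_reach hG hy.inn.tri hy.α0 hy.α1 hx.pt h3).symm hG.symm hG.comm)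
      linarith
    obtain ⟨c1, s1⟩ := hpi h2
    obtain ⟨c2, s2⟩ := hpi h3
    rcases le_total 0 ((1 - t) * r - t * s) with h4 | h4
    · refine good_ray hK hKε ht0 ht1 hxy (by linarith) hx hy (by rw [s1, mul_zero]) ?_
      rw [c1]
      linarith
    · obtain ⟨z, hz⟩ := good_ray hK hKε ht0' ht1' hyx hyv hy hx (by rw [s2, mul_zero]) (by
        rw [c2]
        linarith)
      exact ⟨z, hz.symm⟩

end Pool.Agent.Helper37.CX
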