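import Pool.Agent.Helper3.FJ.Met

/-!
# Points of a complex and the Euclidean distance in a triangle
-/

set_option autoImplicit false

namespace Pool.Agent.Helper37.CX

open Pool.Agent.Helper3.FJ Real

variable {V : Type}

/-- The function `x` gives barycentric coordinates of a point of the triangle `a`, `b`, `c`. -/
structure Inn (X : Cpx V) (x : V → ℝ) (a b c : V) : Prop where
  tri : X.tri a b c
  ha : 0 ≤ x a
  hb : 0 ≤ x b
  hc : 0 ≤ x c
  sum : x a + x b + x c = 1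
  out : ∀ v, v ≠ a → v ≠ b → v ≠ c → x v = 0

/-- The square of the Euclidean distance. -/
def qd (ℓ : V → V → ℝ) (x y : V → ℝ) (a b c : V) : ℝ :=
  -((x a - y a) * (x b - y b) * ℓ a b ^ 2 + (x b - y b) * (x c - y c) * ℓ b c ^ 2 +
    (x a - y a) * (x c - y c) * ℓ a c ^ 2)

/-- The Euclidean distance. -/
noncomputable def ed (ℓ : V → V → ℝ) (x y : V → ℝ) (a b c : V) : ℝ := √(qd ℓ x y a b c)

variable {X : Cpx V} {ℓ : V → V → ℝ} {x y : V → ℝ} {a b c v : V}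

theorem Inn.rot (h : Inn X x a b c) : Inn X x b c a :=
  ⟨X.tri_rot _ _ _ h.tri, h.hb, h.hc, h.ha, by linarith [h.sum], fun v h1 h2 h3 => h.out v h3 h1 h2⟩

theorem Inn.flip (h : Inn X x a b c) : Inn X x b a c :=
  ⟨X.tri_flip _ _ _ h.tri, h.hb, h.ha, h.hc, by linarith [h.sum], fun v h1 h2 h3 => h.out v h2 h1 h3⟩

theorem qd_rot (hs : ∀ u v, ℓ u v = ℓ v u) : qd ℓ x y b c a = qd ℓ x y a b c := by
  unfold qd
  rw [hs c a, hs b a]
  ring

theorem qd_flip (hs : ∀ u v, ℓ u v = ℓ v u) : qd ℓ x y b a c = qd ℓ x y a b c := by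
  unfold qd
  rw [hs b a]
  ring

theorem ed_rot (hs : ∀ u v, ℓ u v = ℓ v u) : ed ℓ x y b c a = ed ℓ x y a b c := by
  unfold ed; rw [qd_rot hs]

theorem ed_flip (hs : ∀ u v, ℓ u v = ℓ v u) : ed ℓ x y b a c = ed ℓ x y a b c := by
  unfold ed; rw [qd_flip hs]

theorem qd_comm : qd ℓ x y a b c = qd ℓ y x a b c := by unfold qd; ring

theorem ed_comm : ed ℓ x y a b c = ed ℓ y x a b c := by unfold ed; rw [qd_comm]

theorem ed_nonneg : 0 ≤ ed ℓ x y a b c := Real.sqrt_nonneg _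

theorem ed_self : ed ℓ x x a b c = 0 := by unfold ed qd; simp

/-- A vertex of the carrier can be moved to the first place. -/
theorem Inn.cases (h : Inn X x a b c) (hv : 0 < x v) (hs : ∀ u v, ℓ u v = ℓ v u) (y : V → ℝ) :
    (∃ d e, Inn X x v d e ∧ (Inn X y a b c → Inn X y v d e) ∧
      ed ℓ x y v d e = ed ℓ x y a b c) := by
  by_cases h1 : v = a
  · subst h1
    exact ⟨b, c, h, id, rfl⟩
  by_cases h2 : v = b
  · subst h2
    exact ⟨a, c, h.flip, fun h' => h'.flip, ed_flip hs⟩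
  by_cases h3 : v = c
  · subst h3
    exact ⟨a, b, h.rot.rot, fun h' => h'.rot.rot, by rw [← ed_rot hs]⟩
  · exact absurd (h.out v h1 h2 h3) hv.ne'

/-- The position in the plane. -/
noncomputable def ch (ℓ : V → V → ℝ) (v a b : V) (p q : ℝ) : ℂ :=
  ⟨p * ℓ v a + q * ℓ v b * cos (Cpx.ang ℓ v a b), q * ℓ v b * sin (Cpx.ang ℓ v a b)⟩

section metric

variable (hM : X.Metric ℓ)

include hM

omit hM in
theorem tri_swap (h : X.tri v a b) : X.tri v b a := X.tri_rot _ _ _ (X.tri_flip _ _ _ h)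

theorem quot_bounds (h : X.tri v a b) :
    -1 < (ℓ v a ^ 2 + ℓ v b ^ 2 - ℓ a b ^ 2) / (2 * ℓ v a * ℓ v b) ∧
    (ℓ v a ^ 2 + ℓ v b ^ 2 - ℓ a b ^ 2) / (2 * ℓ v a * ℓ v b) < 1 := by
  have h1 : X.adj v a := X.tri_adj _ _ _ h
  have h2 : X.adj v b := X.tri_adj _ _ _ (tri_swap h)
  have h3 : X.adj a b := X.tri_adj _ _ _ (X.tri_rot _ _ _ h)
  have p1 := hM.pos _ _ h1
  have p2 := hM.pos _ _ h2
  have p3 := hM.pos _ _ h3
  have t1 := hM.tri _ _ _ h
  have t2 := hM.tri _ _ _ (tri_swap h)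
  have t3 := hM.tri _ _ _ (X.tri_flip _ _ _ h)
  rw [hM.symm b a] at t2
  rw [hM.symm a v] at t3
  have hpos : 0 < 2 * ℓ v a * ℓ v b := by positivity
  constructor
  · rw [lt_div_iff₀ hpos]
    nlinarith
  · rw [div_lt_iff₀ hpos]
    nlinarith

theorem ang_pos (h : X.tri v a b) : 0 < Cpx.ang ℓ v a b := by
  unfold Cpx.ang
  exact Real.arccos_pos.2 (quot_bounds hM h).2

theorem ang_lt (h : X.tri v a b) : Cpx.ang ℓ v a b < π := by
  unfold Cpx.ang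
  exact Real.arccos_lt_pi.2 (quot_bounds hM h).1

theorem ang_comm : Cpx.ang ℓ v a b = Cpx.ang ℓ v b a := by
  unfold Cpx.ang
  rw [hM.symm a b]
  congr 1
  ring

theorem two_mul_cos (h : X.tri v a b) :
    2 * ℓ v a * ℓ v b * cos (Cpx.ang ℓ v a b) = ℓ v a ^ 2 + ℓ v b ^ 2 - ℓ a b ^ 2 := by
  have h1 := quot_bounds hM h
  have p1 := hM.pos _ _ (X.tri_adj _ _ _ h)
  have p2 := hM.pos _ _ (X.tri_adj _ _ _ (tri_swap h))
  unfold Cpx.ang
  rw [Real.cos_arccos h1.1.le h1.2.le]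
  field_simp

theorem sin_pos (h : X.tri v a b) : 0 < sin (Cpx.ang ℓ v a b) :=
  Real.sin_pos_of_pos_of_lt_pi (ang_pos hM h) (ang_lt hM h)

/-- The square of the norm. -/
theorem normSq_ch (h : X.tri v a b) (p q : ℝ) : Complex.normSq (ch ℓ v a b p q) =
    p ^ 2 * ℓ v a ^ 2 + q ^ 2 * ℓ v b ^ 2 + p * q * (ℓ v a ^ 2 + ℓ v b ^ 2 - ℓ a b ^ 2) := by
  rw [Complex.normSq_apply, ← two_mul_cos hM h]
  unfold ch
  simp only
  linear_combination (q ^ 2 * ℓ v b ^ 2) * Real.sin_sq_add_cos_sq (Cpx.ang ℓ v a b)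

omit hM in
theorem ch_sub (p q p' q' : ℝ) : ch ℓ v a b p q - ch ℓ v a b p' q' = ch ℓ v a b (p - p') (q - q') := by
  unfold ch
  apply Complex.ext
  · simp only [Complex.sub_re]; ring
  · simp only [Complex.sub_im]; ring

/-- The distance in a triangle is the distance in the plane. -/
theorem ed_eq (hx : Inn X x v a b) (hy : Inn X y v a b) :
    ed ℓ x y v a b = ‖ch ℓ v a b (x a) (x b) - ch ℓ v a b (y a) (y b)‖ := by
  rw [ch_sub, Complex.norm_def, normSq_ch hM hx.tri]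
  unfold ed qd
  congr 1
  have h1 : x v - y v = -(x a - y a) - (x b - y b) := by linarith [hx.sum, hy.sum]
  rw [h1]
  ring

/-- Coordinates are Lipschitz functions. -/
theorem coord_le (h : X.tri v a b) (p q : ℝ) :
    |q| * (ℓ v b * sin (Cpx.ang ℓ v a b)) ≤ ‖ch ℓ v a b p q‖ := by
  have h1 := Complex.abs_im_le_norm (ch ℓ v a b p q)
  have p2 := hM.pos _ _ (X.tri_adj _ _ _ (tri_swap h))
  have h2 := sin_pos hM h
  have h3 : (ch ℓ v a b p q).im = q * (ℓ v b * sin (Cpx.ang ℓ v a b)) := by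
    unfold ch; simp only; ring
  rw [h3, abs_mul, abs_of_pos (mul_pos p2 h2)] at h1
  exact h1

theorem norm_swap (h : X.tri v a b) (p q : ℝ) : ‖ch ℓ v b a q p‖ = ‖ch ℓ v a b p q‖ := by
  rw [Complex.norm_def, Complex.norm_def, normSq_ch hM h,
    normSq_ch hM (tri_swap h), hM.symm b a]
  congr 1
  ring

end metric

/-- The Lipschitz constant of a triangle. -/
noncomputable def lc (ℓ : V → V → ℝ) (v a b : V) : ℝ :=
  1 / (ℓ v a * sin (Cpx.ang ℓ v a b)) + 1 / (ℓ v b * sin (Cpx.ang ℓ v a b))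

theorem abs_add_abs_le (hM : X.Metric ℓ) (h : X.tri v a b) (p q : ℝ) :
    |p| + |q| ≤ lc ℓ v a b * ‖ch ℓ v a b p q‖ := by
  have p1 := hM.pos _ _ (X.tri_adj _ _ _ h)
  have p2 := hM.pos _ _ (X.tri_adj _ _ _ (tri_swap h))
  have h2 := sin_pos hM h
  have h3 := coord_le hM h p q
  have h4 := coord_le hM (tri_swap h) q p
  rw [norm_swap hM h, ← ang_comm hM] at h4
  have h5 : |q| ≤ 1 / (ℓ v b * sin (Cpx.ang ℓ v a b)) * ‖ch ℓ v a b p q‖ := by
    rw [one_div, ← div_eq_inv_mul, le_div_iff₀ (by positivity)]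
    exact h3
  have h6 : |p| ≤ 1 / (ℓ v a * sin (Cpx.ang ℓ v a b)) * ‖ch ℓ v a b p q‖ := by
    rw [one_div, ← div_eq_inv_mul, le_div_iff₀ (by positivity)]
    exact h4
  unfold lc
  linarith [add_mul (1 / (ℓ v a * sin (Cpx.ang ℓ v a b))) (1 / (ℓ v b * sin (Cpx.ang ℓ v a b)))
    ‖ch ℓ v a b p q‖]

/-- There are only finitely many shapes of triangles. -/
def FinShapes (X : Cpx V) (ℓ : V → V → ℝ) : Prop :=
  {s : ℝ × ℝ × ℝ | ∃ a b c, X.tri a b c ∧ s = (ℓ a b, ℓ a c, ℓ b c)}.Finite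

theorem exists_lc (hM : X.Metric ℓ) (hF : FinShapes X ℓ) :
    ∃ K : ℝ, 0 < K ∧ ∀ v a b, X.tri v a b → ∀ p q : ℝ, |p| + |q| ≤ K * ‖ch ℓ v a b p q‖ := by
  let f : ℝ × ℝ × ℝ → ℝ := fun s =>
    1 / (s.1 * sin (Real.arccos ((s.1 ^ 2 + s.2.1 ^ 2 - s.2.2 ^ 2) / (2 * s.1 * s.2.1)))) +
    1 / (s.2.1 * sin (Real.arccos ((s.1 ^ 2 + s.2.1 ^ 2 - s.2.2 ^ 2) / (2 * s.1 * s.2.1))))
  obtain ⟨K, hK⟩ := (hF.image f).bddAbove
  refine ⟨max K 1, lt_max_of_lt_right one_pos, fun v a b h p q => ?_⟩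
  refine (abs_add_abs_le hM h p q).trans (mul_le_mul_of_nonneg_right ?_ (norm_nonneg _))
  refine le_max_of_le_left (hK ?_)
  exact ⟨_, ⟨v, a, b, h, rfl⟩, rfl⟩

end Pool.Agent.Helper37.CX
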