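import Pool.Agent.Helper37.CX.Polar

/-!
# Developing segments
-/

set_option autoImplicit false

namespace Pool.Agent.Helper37.CX

open Pool.Agent.Helper3.FJ Real Relation Pool.Agent.Helper37.MG

variable {V : Type} {X : Cpx V} {ℓ : V → V → ℝ}

theorem norm_pl_congr {r s α β α' β' : ℝ} (h : α - β = α' - β' ∨ α - β = -(α' - β')) :
    ‖pl r α - pl s β‖ = ‖pl r α' - pl s β'‖ := by
  rw [Complex.norm_def, Complex.norm_def, normSq_pl_sub, normSq_pl_sub]
  rcases h with h | h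
  · rw [h]
  · rw [h, Real.cos_neg]

theorem norm_pl_pi {r s α β : ℝ} (hr : 0 ≤ r) (hs : 0 ≤ s) (h : cos (α - β) = -1) :
    ‖pl r α - pl s β‖ = r + s := by
  rw [Complex.norm_def, normSq_pl_sub, h, show r ^ 2 + s ^ 2 - 2 * r * s * -1 = (r + s) ^ 2 by ring]
  exact Real.sqrt_sq (add_nonneg hr hs)

/-- The segment between two points of the plane meets the rays between them. -/
theorem exists_cross {r s θ φ : ℝ} (hr : 0 ≤ r) (hs : 0 ≤ s) (h0 : 0 ≤ θ) (h1 : θ ≤ φ)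
    (h2 : φ < π) : ∃ ρ : ℝ, 0 ≤ ρ ∧ ‖pl r 0 - pl ρ θ‖ + ‖pl ρ θ - pl s φ‖ = ‖pl r 0 - pl s φ‖ := by
  have s1 : 0 ≤ sin θ := Real.sin_nonneg_of_nonneg_of_le_pi h0 (by linarith)
  have s2 : 0 ≤ sin (φ - θ) := Real.sin_nonneg_of_nonneg_of_le_pi (by linarith) (by linarith)
  have s3 : 0 ≤ sin φ := Real.sin_nonneg_of_nonneg_of_le_pi (by linarith) (by linarith)
  rcases eq_or_lt_of_le (mul_nonneg hr s1) with h3 | h3
  · refine ⟨r, hr, ?_⟩
    have h4 : pl r 0 = pl r θ := by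
      rcases mul_eq_zero.1 h3.symm with h5 | h5
      · rw [h5, pl_zero, pl_zero]
      · rcases eq_or_lt_of_le h0 with h6 | h6
        · rw [← h6]
        · have := Real.sin_pos_of_pos_of_lt_pi h6 (by linarith)
          exact absurd h5 this.ne'
    rw [h4, sub_self, norm_zero, zero_add]
  · obtain ⟨D, hD⟩ : ∃ D, D = r * sin θ + s * sin (φ - θ) := ⟨_, rfl⟩
    have hD0 : 0 < D := by
      rw [hD]
      have := mul_nonneg hs s2
      linarith
    obtain ⟨t, ht⟩ : ∃ t, t = r * sin θ / D := ⟨_, rfl⟩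
    have ht0 : 0 ≤ t := ht ▸ div_nonneg h3.le hD0.le
    have ht1 : t ≤ 1 := by
      rw [ht, div_le_one hD0, hD]
      linarith [mul_nonneg hs s2]
    have htD : t * D = r * sin θ := by rw [ht]; field_simp
    obtain ⟨ρ, hρ⟩ : ∃ ρ, ρ = r * s * sin φ / D := ⟨_, rfl⟩
    have hρ0 : 0 ≤ ρ := hρ ▸ div_nonneg (mul_nonneg (mul_nonneg hr hs) s3) hD0.le
    have hρD : ρ * D = r * s * sin φ := by rw [hρ]; field_simp
    have e1 : sin φ = sin θ * cos (φ - θ) + cos θ * sin (φ - θ) := by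
      rw [← Real.sin_add]; congr 1; ring
    have e2 : cos φ = cos θ * cos (φ - θ) - sin θ * sin (φ - θ) := by
      rw [← Real.cos_add]; congr 1; ring
    have hsq := Real.sin_sq_add_cos_sq θ
    have key : pl ρ θ = pl r 0 + (t : ℂ) * (pl s φ - pl r 0) := by
      have hD' : D ≠ 0 := hD0.ne'
      have f1 : ρ = (1 - t) * (r * cos θ) + t * (s * cos (φ - θ)) := by
        have : ρ * D = ((1 - t) * (r * cos θ) + t * (s * cos (φ - θ))) * D := by
          rw [hρD, e1]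
          have h5 : ((1 - t) * (r * cos θ) + t * (s * cos (φ - θ))) * D =
              (D - t * D) * (r * cos θ) + (t * D) * (s * cos (φ - θ)) := by ring
          rw [h5, htD, hD]
          ring
        exact mul_right_cancel₀ hD' this
      have f2 : (1 - t) * (r * sin θ) = t * (s * sin (φ - θ)) := by
        have h5 : t * (s * sin (φ - θ)) = t * D - t * (r * sin θ) := by rw [hD]; ring
        rw [h5, htD]
        ring
      apply Complex.ext
      · simp only [pl, Complex.add_re, Complex.mul_re, Complex.ofReal_re, Complex.ofReal_im,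
          Complex.sub_re, Complex.sub_im, zero_mul, sub_zero, Real.cos_zero, mul_one]
        rw [e2, f1]
        linear_combination ((1 - t) * r) * (hsq) - sin θ * f2
      · simp only [pl, Complex.add_im, Complex.mul_im, Complex.ofReal_re, Complex.ofReal_im,
          Complex.sub_re, Complex.sub_im, zero_mul, add_zero, Real.sin_zero, mul_zero, sub_zero]
        rw [e1, f1]
        linear_combination cos θ * f2
    refine ⟨ρ, hρ0, ?_⟩
    have g1 : pl r 0 - pl ρ θ = (t : ℂ) * (pl r 0 - pl s φ) := by rw [key]; ring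
    have g2 : pl ρ θ - pl s φ = ((1 - t : ℝ) : ℂ) * (pl r 0 - pl s φ) := by
      rw [key]; push_cast; ring
    rw [g1, g2, norm_mul, norm_mul, Complex.norm_real, Complex.norm_real, Real.norm_eq_abs,
      Real.norm_eq_abs, abs_of_nonneg ht0, abs_of_nonneg (by linarith)]
    ring

variable {hX : Cx X ℓ} {K : ℝ} {v a b : V}

/-- Moves in the plane of a triangle. -/
theorem ext_cell (hK : Lip X ℓ K) {x : Sp hX} {r α : ℝ} (h : Pol X ℓ x.1 v a b r α) {ρ ζ : ℝ}
    (hρ : 0 ≤ ρ) (hζ0 : 0 ≤ ζ) (hζ1 : ζ ≤ Cpx.ang ℓ v a b) (hs : K * ‖pl r α - pl ρ ζ‖ ≤ x.1 v) :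
    ∃ z : Sp hX, Pol X ℓ z.1 v a b ρ ζ ∧ dist x z ≤ ‖pl r α - pl ρ ζ‖ ∧
      x.1 v - K * ‖pl r α - pl ρ ζ‖ ≤ z.1 v := by
  classical
  have hM := hX.metric
  obtain ⟨n1, n2, n3⟩ := tri_ne hM h.inn.tri
  have q1 := hM.pos _ _ (X.tri_adj _ _ _ h.inn.tri)
  have q2 := hM.pos _ _ (X.tri_adj _ _ _ (tri_swap h.inn.tri))
  have hsin := sin_pos hM h.inn.tri
  have hlt := ang_lt hM h.inn.tri
  obtain ⟨p, hp⟩ : ∃ p, p = ρ * sin (Cpx.ang ℓ v a b - ζ) / (ℓ v a * sin (Cpx.ang ℓ v a b)) :=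
    ⟨_, rfl⟩
  obtain ⟨q, hq⟩ : ∃ q, q = ρ * sin ζ / (ℓ v b * sin (Cpx.ang ℓ v a b)) := ⟨_, rfl⟩
  have hp0 : 0 ≤ p := by
    rw [hp]
    have : 0 ≤ sin (Cpx.ang ℓ v a b - ζ) :=
      Real.sin_nonneg_of_nonneg_of_le_pi (by linarith) (by linarith)
    positivity
  have hq0 : 0 ≤ q := by
    rw [hq]
    have : 0 ≤ sin ζ := Real.sin_nonneg_of_nonneg_of_le_pi hζ0 (by linarith)
    positivity
  have hch : ch ℓ v a b p q = pl ρ ζ := by
    have e1 : q * ℓ v b * sin (Cpx.ang ℓ v a b) = ρ * sin ζ := by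
      rw [hq]; field_simp
    have e2 : p * ℓ v a * sin (Cpx.ang ℓ v a b) = ρ * sin (Cpx.ang ℓ v a b - ζ) := by
      rw [hp]; field_simp
    rw [Real.sin_sub] at e2
    unfold ch pl
    apply Complex.ext
    · simp only
      have e3 : (p * ℓ v a + q * ℓ v b * cos (Cpx.ang ℓ v a b)) * sin (Cpx.ang ℓ v a b) =
          (ρ * cos ζ) * sin (Cpx.ang ℓ v a b) := by
        linear_combination e2 + cos (Cpx.ang ℓ v a b) * e1
      exact mul_right_cancel₀ hsin.ne' e3
    · simp only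
      exact e1
  have hdiff : |x.1 a - p| + |x.1 b - q| ≤ K * ‖pl r α - pl ρ ζ‖ := by
    have := hK.2 v a b h.inn.tri (x.1 a - p) (x.1 b - q)
    rwa [← ch_sub, h.eq, hch] at this
  have hsum : p + q ≤ 1 - (x.1 v - K * ‖pl r α - pl ρ ζ‖) := by
    have h1 := neg_abs_le (x.1 a - p)
    have h2 := neg_abs_le (x.1 b - q)
    linarith [h.inn.sum]
  obtain ⟨g, hg⟩ : ∃ g : V → ℝ, g = fun u => if u = v then 1 - p - q else if u = a then p else
    if u = b then q else 0 := ⟨_, rfl⟩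
  have gv : g v = 1 - p - q := by rw [hg]; exact if_pos rfl
  have ga : g a = p := by rw [hg]; simp only [if_neg n1.symm, if_true]
  have gb : g b = q := by rw [hg]; simp only [if_neg n3.symm, if_neg n2.symm, if_true]
  have go : ∀ u, u ≠ v → u ≠ a → u ≠ b → g u = 0 := fun u h1 h2 h3 => by
    rw [hg]; simp only [if_neg h1, if_neg h2, if_neg h3]
  have hI : Inn X g v a b := ⟨h.inn.tri, by rw [gv]; linarith, by rw [ga]; exact hp0,
    by rw [gb]; exact hq0, by rw [gv, ga, gb]; ring, go⟩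
  refine ⟨⟨g, v, a, b, hI⟩, ⟨hI, hρ, hζ0, hζ1, by simp only [ga, gb]; exact hch⟩, ?_, ?_⟩
  · have h1 := dist_le (Ch.of (hX := hX) (x := x) (y := ⟨g, v, a, b, hI⟩) h.inn hI)
    rw [ed_eq hM h.inn hI] at h1
    simp only [ga, gb] at h1
    rwa [h.eq, hch] at h1
  · simp only [gv]
    linarith

/-- Change of the triangle for a point on a side. -/
theorem Pol.switch (hM : X.Metric ℓ) {x : V → ℝ} {r : ℝ} (h : Pol X ℓ x v a b r 0) {c : V}
    (hc : X.tri v a c) : Pol X ℓ x v a c r 0 := by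
  obtain ⟨n1, n2, n3⟩ := tri_ne hM h.inn.tri
  obtain ⟨m1, m2, m3⟩ := tri_ne hM hc
  have q2 := hM.pos _ _ (X.tri_adj _ _ _ (tri_swap h.inn.tri))
  have hsin := sin_pos hM h.inn.tri
  have him := h.im
  rw [Real.sin_zero, mul_zero] at him
  have hb : x b = 0 := by
    rcases mul_eq_zero.1 him with h1 | h1
    · rcases mul_eq_zero.1 h1 with h2 | h2
      · exact h2
      · exact absurd h2 q2.ne'
    · exact absurd h1 hsin.ne'
  have hz : ∀ u, u ≠ v → u ≠ a → x u = 0 := fun u hu hu' => by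
    by_cases h4 : u = b
    · rw [h4, hb]
    · exact h.inn.out u hu hu' h4
  have hxc : x c = 0 := hz c m3.symm m2.symm
  have hre := h.re
  rw [hb, zero_mul, zero_mul, add_zero, Real.cos_zero, mul_one] at hre
  refine ⟨⟨hc, h.inn.ha, h.inn.hb, by rw [hxc], ?_, fun u h1 h2 _ => hz u h1 h2⟩, h.r0, le_rfl,
    (ang_pos hM hc).le, ?_⟩
  · rw [hxc]
    have := h.inn.sum
    rw [hb] at this
    linarith
  · rw [hxc]
    unfold ch pl
    apply Complex.ext
    · simp only [zero_mul, add_zero, Real.cos_zero, mul_one]; exact hre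
    · simp only [zero_mul, Real.sin_zero, mul_zero]

/-- **Developing.** The end of a segment which leaves the point `x` at distance `φ` in the link. -/
theorem develop (hK : Lip X ℓ K) {τ τ' : V × V × ℝ} {φ : ℝ}
    (h : AC (LE X v) (Lθ ℓ v) τ τ' φ) : Pt (LE X v) (Lθ ℓ v) τ' → φ < π →
    ∀ (x : Sp hX) (r ρ : ℝ), Pol X ℓ x.1 v τ.1 τ.2.1 r τ.2.2 → 0 ≤ ρ →
      K * ‖pl r 0 - pl ρ φ‖ ≤ x.1 v →
      ∃ z : Sp hX, Pol X ℓ z.1 v τ'.1 τ'.2.1 ρ τ'.2.2 ∧ dist x z ≤ ‖pl r 0 - pl ρ φ‖ ∧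
        x.1 v - K * ‖pl r 0 - pl ρ φ‖ ≤ z.1 v := by
  have hM := hX.metric
  induction h with
  | nil τ =>
    intro _ _ x r ρ h1 h2 h3
    have e : ‖pl r 0 - pl ρ 0‖ = ‖pl r τ.2.2 - pl ρ τ.2.2‖ := norm_pl_congr (Or.inl (by ring))
    rw [e] at h3 ⊢
    exact ext_cell hK h1 h2 h1.α0 h1.α1 h3
  | @cons τ τ₁ τ₂ δ φ hst hac ih =>
    intro hp hπ x r ρ h1 h2 h3
    have hφ0 := hac.nonneg
    cases hst with
    | @move a b α β p1 p2 =>
      obtain ⟨ρ₁, hρ₁, hc⟩ := exists_cross (θ := |α - β|) h1.r0 h2 (abs_nonneg _)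
        (by linarith : |α - β| ≤ |α - β| + φ) hπ
      have e1 : ‖pl r 0 - pl ρ₁ |α - β|‖ = ‖pl r α - pl ρ₁ β‖ := by
        refine norm_pl_congr ?_
        rcases abs_choice (α - β) with h4 | h4
        · right; rw [h4]; ring
        · left; rw [h4]; ring
      have e2 : ‖pl ρ₁ |α - β| - pl ρ (|α - β| + φ)‖ = ‖pl ρ₁ 0 - pl ρ φ‖ :=
        norm_pl_congr (Or.inl (by ring))
      rw [e1, e2] at hc
      have n1 : 0 ≤ ‖pl ρ₁ 0 - pl ρ φ‖ := norm_nonneg _
      have hKn : 0 ≤ K * ‖pl ρ₁ 0 - pl ρ φ‖ := mul_nonneg hK.1.le n1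
      rw [← hc, mul_add] at h3
      obtain ⟨q, hq1, hq2, hq3⟩ := ext_cell hK h1 hρ₁ p2.2.1 p2.2.2 (by linarith)
      obtain ⟨z, hz1, hz2, hz3⟩ := ih hp (by linarith [abs_nonneg (α - β)]) q ρ₁ ρ hq1 h2
        (by linarith)
      refine ⟨z, hz1, ?_, ?_⟩
      · rw [← hc]
        linarith [dist_triangle x q z]
      · rw [← hc, mul_add]
        linarith
    | @swap a b α p1 =>
      rw [zero_add] at hπ h3 ⊢
      exact ih hp hπ x r ρ (h1.swap hM) h2 h3
    | @switch a b c p1 p2 =>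
      rw [zero_add] at hπ h3 ⊢
      exact ih hp hπ x r ρ (h1.switch hM p2) h2 h3

/-- Distances between points with a chain in the link. -/
theorem dist_le_of_ac (hK : Lip X ℓ K) {x y : Sp hX} {a b c d : V} {r s α β φ : ℝ}
    (hx : Pol X ℓ x.1 v a b r α) (hy : Pol X ℓ y.1 v c d s β)
    (h : AC (LE X v) (Lθ ℓ v) (a, b, α) (c, d, β) φ) (hπ : φ < π)
    (hs : K * ‖pl r 0 - pl s φ‖ ≤ x.1 v) : dist x y ≤ ‖pl r 0 - pl s φ‖ := by
  obtain ⟨z, h1, h2, -⟩ := develop hK h hy.pt hπ x r s hx hy.r0 hs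
  have : z = y := Subtype.ext (h1.ext hX.metric hy)
  rwa [this] at h2

/-- Distances through the vertex. -/
theorem dist_le_add {x y : Sp hX} {a b c d : V} {r s α β : ℝ}
    (hx : Pol X ℓ x.1 v a b r α) (hy : Pol X ℓ y.1 v c d s β) : dist x y ≤ r + s := by
  have hM := hX.metric
  have key : ∀ (x : Sp hX) (a b : V) (r α : ℝ) (h : Pol X ℓ x.1 v a b r α),
      dist x (vtx hX h.inn.tri) ≤ r := by
    intro x a b r α h
    have h1 := inn_vp hM h.inn.tri
    have h2 := dist_le (Ch.of (hX := hX) (x := x) (y := vtx hX h.inn.tri) h.inn h1)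
    obtain ⟨n1, n2, n3⟩ := tri_ne hM h.inn.tri
    refine h2.trans (le_of_eq ?_)
    change ed ℓ x.1 (vp v) v a b = r
    rw [ed_eq hM h.inn h1, vp_ne n1.symm, vp_ne n3.symm, h.eq]
    have : ch ℓ v a b 0 0 = 0 := by
      unfold ch; apply Complex.ext <;> simp
    rw [this, sub_zero, norm_pl _ _ h.r0]
  have e1 := key x a b r α hx
  have e2 := key y c d s β hy
  have e3 : vtx hX hx.inn.tri = vtx hX hy.inn.tri := rfl
  rw [← e3] at e2
  have := dist_triangle x (vtx hX hx.inn.tri) y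
  rw [dist_comm (vtx hX hx.inn.tri) y] at this
  linarith

/-- The map to the plane is 1-Lipschitz near points which are not far from the vertex. -/
theorem Phi_ch (hK : Lip X ℓ K) {G : V × V × ℝ → ℝ} (hG : Fld (LE X v) (Lθ ℓ v) G) {x y : Sp hX}
    {L : ℝ} (h : Ch hX x y L) : K * L < x.1 v → ‖Phi X ℓ v G x.1 - Phi X ℓ v G y.1‖ ≤ L := by
  have hM := hX.metric
  induction h with
  | nil => intro _; simp
  | @cons x y z a b c L h1 h2 h3 ih =>
    intro hs
    have hL := h3.nonneg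
    have he := ed_nonneg (ℓ := ℓ) (x := x.1) (y := y.1) (a := a) (b := b) (c := c)
    have hKL : 0 ≤ K * L := mul_nonneg hK.1.le hL
    have hKe : 0 ≤ K * ed ℓ x.1 y.1 a b c := mul_nonneg hK.1.le he
    rw [mul_add] at hs
    obtain ⟨d, e, h4, h5, h6⟩ := h1.cases (v := v) (by linarith) hM.symm y.1
    have h7 := Phi_step hM hG h4 (h5 h2)
    rw [h6] at h7
    have h8 := (abs_le.1 (hK.step hM h1 h2 v)).2
    have h9 := ih (by linarith)
    have := norm_sub_le_norm_sub_add_norm_sub (Phi X ℓ v G x.1) (Phi X ℓ v G y.1)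
      (Phi X ℓ v G z.1)
    linarith

theorem Phi_lip (hK : Lip X ℓ K) {G : V × V × ℝ → ℝ} (hG : Fld (LE X v) (Lθ ℓ v) G) {x y : Sp hX}
    (hs : K * dist x y < x.1 v) : ‖Phi X ℓ v G x.1 - Phi X ℓ v G y.1‖ ≤ dist x y := by
  refine le_of_forall_pos_le_add fun η hη => ?_
  obtain ⟨L, h1, h2⟩ := exists_lt (x := x) (y := y)
    (r := min (dist x y + η) (dist x y + (x.1 v - K * dist x y) / K)) (by
      refine lt_min (by linarith) ?_
      have := div_pos (sub_pos.2 hs) hK.1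
      linarith)
  have h3 : L < dist x y + (x.1 v - K * dist x y) / K := h2.trans_le (min_le_right _ _)
  have h4 : K * L < x.1 v := by
    have := mul_lt_mul_of_pos_left h3 hK.1
    rw [mul_add, mul_div_cancel₀ _ hK.1.ne'] at this
    linarith
  exact (Phi_ch hK hG h1 h4).trans (h2.le.trans (min_le_left _ _))

end Pool.Agent.Helper37.CX
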