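import Pool.Agent.Helper37.CX.Space
import Pool.Agent.Helper37.MG.Geo

/-!
# Polar coordinates at a vertex
-/

set_option autoImplicit false

namespace Pool.Agent.Helper37.CX

open Pool.Agent.Helper3.FJ Real Relation Pool.Agent.Helper37.MG

variable {V : Type} {X : Cpx V} {ℓ : V → V → ℝ}

/-- The point of the plane with polar coordinates `r`, `α`. -/
noncomputable def pl (r α : ℝ) : ℂ := ⟨r * cos α, r * sin α⟩

theorem pl_zero (α : ℝ) : pl 0 α = 0 := by
  unfold pl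
  apply Complex.ext <;> simp

theorem normSq_pl_sub (r α s β : ℝ) :
    Complex.normSq (pl r α - pl s β) = r ^ 2 + s ^ 2 - 2 * r * s * cos (α - β) := by
  rw [Complex.normSq_apply, Real.cos_sub]
  unfold pl
  simp only [Complex.sub_re, Complex.sub_im]
  linear_combination r ^ 2 * Real.sin_sq_add_cos_sq α + s ^ 2 * Real.sin_sq_add_cos_sq β

theorem norm_pl_sub_le {r s α β α' β' : ℝ} (hr : 0 ≤ r) (hs : 0 ≤ s)
    (h : cos (α - β) ≤ cos (α' - β')) : ‖pl r α' - pl s β'‖ ≤ ‖pl r α - pl s β‖ := by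
  rw [Complex.norm_def, Complex.norm_def, normSq_pl_sub, normSq_pl_sub]
  apply Real.sqrt_le_sqrt
  have := mul_le_mul_of_nonneg_left h (mul_nonneg (mul_nonneg zero_le_two hr) hs)
  linarith

theorem norm_pl (r α : ℝ) (hr : 0 ≤ r) : ‖pl r α‖ = r := by
  have h := normSq_pl_sub r α 0 0
  rw [pl_zero, sub_zero] at h
  rw [Complex.norm_def, h]
  simp only [mul_zero, zero_mul, sub_zero, ne_eq, OfNat.ofNat_ne_zero, not_false_eq_true, zero_pow,
    add_zero]
  exact Real.sqrt_sq hr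

/-- Polar coordinates of a point of the triangle `v`, `a`, `b`. -/
structure Pol (X : Cpx V) (ℓ : V → V → ℝ) (x : V → ℝ) (v a b : V) (r α : ℝ) : Prop where
  inn : Inn X x v a b
  r0 : 0 ≤ r
  α0 : 0 ≤ α
  α1 : α ≤ Cpx.ang ℓ v a b
  eq : ch ℓ v a b (x a) (x b) = pl r α

variable {x y : V → ℝ} {v a b : V} {r s α β : ℝ}

theorem Pol.re (h : Pol X ℓ x v a b r α) :
    x a * ℓ v a + x b * ℓ v b * cos (Cpx.ang ℓ v a b) = r * cos α := congrArg Complex.re h.eq

theorem Pol.im (h : Pol X ℓ x v a b r α) :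
    x b * ℓ v b * sin (Cpx.ang ℓ v a b) = r * sin α := congrArg Complex.im h.eq

section

variable (hM : X.Metric ℓ)

include hM

theorem exists_pol (h : Inn X x v a b) : ∃ r α, Pol X ℓ x v a b r α := by
  obtain ⟨z, hz⟩ : ∃ z, z = ch ℓ v a b (x a) (x b) := ⟨_, rfl⟩
  have p1 := hM.pos _ _ (X.tri_adj _ _ _ h.tri)
  have p2 := hM.pos _ _ (X.tri_adj _ _ _ (tri_swap h.tri))
  have hs := sin_pos hM h.tri
  have ht0 := ang_pos hM h.tri
  have hre : z.re = x a * ℓ v a + x b * ℓ v b * cos (Cpx.ang ℓ v a b) := by rw [hz]; rfl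
  have him : z.im = x b * ℓ v b * sin (Cpx.ang ℓ v a b) := by rw [hz]; rfl
  by_cases h0 : z = 0
  · refine ⟨0, 0, h, le_rfl, le_rfl, ht0.le, ?_⟩
    rw [← hz, h0, pl_zero]
  · have hn : 0 < ‖z‖ := norm_pos_iff.2 h0
    have hc := Complex.cos_arg h0
    have hsn := Complex.sin_arg z
    have h1 : 0 ≤ Complex.arg z := by
      rw [Complex.arg_nonneg_iff, him]
      exact mul_nonneg (mul_nonneg h.hc p2.le) hs.le
    refine ⟨‖z‖, Complex.arg z, h, hn.le, h1, ?_, ?_⟩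
    · by_contra h2
      push Not at h2
      have h3 := Complex.arg_le_pi z
      have h4 : sin (Cpx.ang ℓ v a b - Complex.arg z) < 0 :=
        Real.sin_neg_of_neg_of_neg_pi_lt (by linarith) (by linarith)
      rw [Real.sin_sub, hc, hsn, hre, him] at h4
      have h5 : ‖z‖ * (sin (Cpx.ang ℓ v a b) *
          ((x a * ℓ v a + x b * ℓ v b * cos (Cpx.ang ℓ v a b)) / ‖z‖) -
          cos (Cpx.ang ℓ v a b) * (x b * ℓ v b * sin (Cpx.ang ℓ v a b) / ‖z‖)) =
          x a * ℓ v a * sin (Cpx.ang ℓ v a b) := by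
        field_simp
        ring
      have h6 : 0 ≤ x a * ℓ v a * sin (Cpx.ang ℓ v a b) :=
        mul_nonneg (mul_nonneg h.hb p1.le) hs.le
      have h7 := mul_neg_of_pos_of_neg hn h4
      rw [h5] at h7
      linarith
    · rw [← hz]
      unfold pl
      rw [hc, hsn, mul_div_cancel₀ _ hn.ne', mul_div_cancel₀ _ hn.ne']

theorem Pol.swap (h : Pol X ℓ x v a b r α) : Pol X ℓ x v b a r (Cpx.ang ℓ v a b - α) := by
  refine ⟨h.inn.rot.flip.rot.rot |> fun _ => ⟨tri_swap h.inn.tri, h.inn.ha, h.inn.hc, h.inn.hb,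
    by linarith [h.inn.sum], fun u h1 h2 h3 => h.inn.out u h1 h3 h2⟩, h.r0,
    by linarith [h.α1], by rw [← ang_comm hM]; linarith [h.α0], ?_⟩
  have h1 := h.re
  have h2 := h.im
  unfold ch pl
  rw [← ang_comm hM, Real.cos_sub, Real.sin_sub]
  apply Complex.ext
  · simp only
    have : r * (cos (Cpx.ang ℓ v a b) * cos α + sin (Cpx.ang ℓ v a b) * sin α) =
        cos (Cpx.ang ℓ v a b) * (r * cos α) + sin (Cpx.ang ℓ v a b) * (r * sin α) := by ring
    rw [this, ← h1, ← h2]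
    linear_combination (- (x b * ℓ v b)) * Real.sin_sq_add_cos_sq (Cpx.ang ℓ v a b)
  · simp only
    have : r * (sin (Cpx.ang ℓ v a b) * cos α - cos (Cpx.ang ℓ v a b) * sin α) =
        sin (Cpx.ang ℓ v a b) * (r * cos α) - cos (Cpx.ang ℓ v a b) * (r * sin α) := by ring
    rw [this, ← h1, ← h2]
    ring

theorem Pol.same (h : Pol X ℓ x v a b r α) (h' : Pol X ℓ x v a b s β) :
    r = s ∧ (r ≠ 0 → α = β) := by
  have h1 : pl r α = pl s β := h.eq.symm.trans h'.eq
  have h2 : r = s := by rw [← norm_pl r α h.r0, h1, norm_pl s β h'.r0]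
  refine ⟨h2, fun h3 => ?_⟩
  subst h2
  have h4 := congrArg Complex.re h1
  unfold pl at h4
  simp only at h4
  have h5 : cos α = cos β := mul_left_cancel₀ h3 h4
  have hlt := ang_lt hM h.inn.tri
  exact Real.injOn_cos ⟨h.α0, by linarith [h.α1]⟩ ⟨h'.α0, by linarith [h'.α1]⟩ h5

/-- Points on the first side. -/
theorem Pol.side (h : Pol X ℓ x v a b r α) (hb : x b = 0) :
    r = x a * ℓ v a ∧ (x a ≠ 0 → α = 0) := by
  have p1 := hM.pos _ _ (X.tri_adj _ _ _ h.inn.tri)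
  have hlt := ang_lt hM h.inn.tri
  have h1 : ch ℓ v a b (x a) (x b) = pl (x a * ℓ v a) 0 := by
    rw [hb]
    unfold ch pl
    apply Complex.ext <;> simp
  have h2 : Pol X ℓ x v a b (x a * ℓ v a) 0 :=
    ⟨h.inn, mul_nonneg h.inn.hb p1.le, le_rfl, (ang_pos hM h.inn.tri).le, h1⟩
  obtain ⟨h3, h4⟩ := h.same hM h2
  exact ⟨h3, fun h5 => h4 (by rw [h3]; exact mul_ne_zero h5 p1.ne')⟩

theorem Pol.ext (h : Pol X ℓ x v a b r α) (h' : Pol X ℓ y v a b r α) : x = y := by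
  have p1 := hM.pos _ _ (X.tri_adj _ _ _ h.inn.tri)
  have p2 := hM.pos _ _ (X.tri_adj _ _ _ (tri_swap h.inn.tri))
  have hs := sin_pos hM h.inn.tri
  have e1 := h.im
  rw [← h'.im] at e1
  have e2 := h.re
  rw [← h'.re] at e2
  have e3 : x b = y b := mul_right_cancel₀ p2.ne' (mul_right_cancel₀ hs.ne' e1)
  rw [e3] at e2
  have e4 : x a = y a := mul_right_cancel₀ p1.ne' (add_right_cancel e2)
  have e5 : x v = y v := by linarith [h.inn.sum, h'.inn.sum]
  funext u
  by_cases h1 : u = v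
  · rw [h1, e5]
  by_cases h2 : u = a
  · rw [h2, e4]
  by_cases h3 : u = b
  · rw [h3, e3]
  · rw [h.inn.out u h1 h2 h3, h'.inn.out u h1 h2 h3]

end

/-- The edges of the link of `v`. -/
def LE (X : Cpx V) (v : V) (a b : V) : Prop := X.tri v a b

/-- The lengths of the edges of the link of `v`. -/
noncomputable def Lθ (ℓ : V → V → ℝ) (v : V) (a b : V) : ℝ := Cpx.ang ℓ v a b

/-- The link of a vertex is a metric graph without short circuits. -/
theorem link_wg (hX : Cx X ℓ) (v : V) : WG (LE X v) (Lθ ℓ v) where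
  symm a b h := tri_swap h
  irrefl a h := (tri_ne hX.metric h).2.1 rfl
  comm a b := ang_comm hX.metric
  pos a b h := ang_pos hX.metric h
  lt a b h := ang_lt hX.metric h
  fin := by
    refine (hX.fin.image fun s : ℝ × ℝ × ℝ =>
      Real.arccos ((s.1 ^ 2 + s.2.1 ^ 2 - s.2.2 ^ 2) / (2 * s.1 * s.2.1))).subset ?_
    rintro r ⟨a, b, h, rfl⟩
    exact ⟨_, ⟨v, a, b, h, rfl⟩, rfl⟩
  girth k u hu h := hX.link v k u hu h

/-- Functions on the link with values in the circle. -/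
structure Fld (E : V → V → Prop) (θ : V → V → ℝ) (F : V × V × ℝ → ℝ) : Prop where
  switch : ∀ a b c, E a b → E a c → F (a, b, 0) = F (a, c, 0)
  swap : ∀ a b α, E a b → F (b, a, θ a b - α) = F (a, b, α)
  move : ∀ a b α β, Pt E θ (a, b, α) → Pt E θ (a, b, β) →
    CD (F (a, b, α)) (F (a, b, β)) |α - β|

theorem fld_F {E : V → V → Prop} {θ : V → V → ℝ} (hG : WG E θ) {s t : V} (hst : E s t) {ζ : ℝ}
    (h0 : 0 ≤ ζ) (h1 : ζ ≤ θ s t) : Fld E θ (F E θ s t ζ) :=
  ⟨fun _ _ _ h h' => F_switch hG hst h0 h1 h h', fun _ _ α _ => F_swap hG hst α,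
    fun _ _ _ _ p1 p2 => F_move hG hst h0 h1 p1 p2⟩

variable {G : V × V × ℝ → ℝ}

theorem Pol.pt (h : Pol X ℓ x v a b r α) : Pt (LE X v) (Lθ ℓ v) (a, b, α) :=
  ⟨h.inn.tri, h.α0, h.α1⟩

/-- Independence of the triangle, first case. -/
theorem pol_indep_aux (hM : X.Metric ℓ) (hG : Fld (LE X v) (Lθ ℓ v) G) {a' b' : V}
    (h : Pol X ℓ x v a b r α) (h' : Pol X ℓ x v a' b' s β) (hb : x b = 0) :
    pl r (G (a, b, α)) = pl s (G (a', b', β)) := by
  obtain ⟨n1, n2, n3⟩ := tri_ne hM h.inn.tri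
  obtain ⟨m1, m2, m3⟩ := tri_ne hM h'.inn.tri
  obtain ⟨h1, h2⟩ := h.side hM hb
  by_cases ha : x a = 0
  · rw [ha, zero_mul] at h1
    have hz : ∀ u, u ≠ v → x u = 0 := fun u hu => by
      by_cases h3 : u = a
      · rw [h3, ha]
      by_cases h4 : u = b
      · rw [h4, hb]
      · exact h.inn.out u hu h3 h4
    obtain ⟨h3, -⟩ := h'.side hM (hz b' m3.symm)
    rw [hz a' m1.symm, zero_mul] at h3
    rw [h1, h3, pl_zero, pl_zero]
  · have hα := h2 ha
    have hmem : a = a' ∨ a = b' := by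
      by_contra hcon
      push Not at hcon
      exact ha (h'.inn.out a n1.symm hcon.1 hcon.2)
    have hz : ∀ u, u ≠ v → u ≠ a → x u = 0 := fun u hu hu' => by
      by_cases h4 : u = b
      · rw [h4, hb]
      · exact h.inn.out u hu hu' h4
    rcases hmem with rfl | rfl
    · obtain ⟨h3, h4⟩ := h'.side hM (hz b' m3.symm m2.symm)
      rw [hα, h4 ha, h1, h3, hG.switch a b b' h.inn.tri h'.inn.tri]
    · have h'' := h'.swap hM
      obtain ⟨h3, h4⟩ := h''.side hM (hz a' m1.symm m2)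
      have h5 := hG.swap a' a β h'.inn.tri
      change G (a, a', Cpx.ang ℓ v a' a - β) = _ at h5
      rw [h4 ha] at h5
      rw [hα, h1, h3, ← h5, hG.switch a b a' h.inn.tri h''.inn.tri]

/-- Independence of the triangle. -/
theorem pol_indep (hM : X.Metric ℓ) (hG : Fld (LE X v) (Lθ ℓ v) G) {a' b' : V}
    (h : Pol X ℓ x v a b r α) (h' : Pol X ℓ x v a' b' s β) :
    pl r (G (a, b, α)) = pl s (G (a', b', β)) := by
  obtain ⟨n1, n2, n3⟩ := tri_ne hM h.inn.tri
  by_cases hb : x b = 0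
  · exact pol_indep_aux hM hG h h' hb
  by_cases ha : x a = 0
  · have := pol_indep_aux hM hG (h.swap hM) h' ha
    have h5 := hG.swap a b α h.inn.tri
    change G (b, a, Cpx.ang ℓ v a b - α) = _ at h5
    rwa [h5] at this
  have hmem : ∀ u, u ≠ v → x u ≠ 0 → u = a' ∨ u = b' := by
    intro u hu hx
    by_contra hcon
    push Not at hcon
    exact hx (h'.inn.out u hu hcon.1 hcon.2)
  have key : ∀ {s β}, Pol X ℓ x v a b s β → pl r (G (a, b, α)) = pl s (G (a, b, β)) := by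
    intro s β h3
    obtain ⟨h4, h5⟩ := h.same hM h3
    by_cases h6 : r = 0
    · rw [← h4, h6, pl_zero, pl_zero]
    · rw [← h4, h5 h6]
  rcases hmem a n1.symm ha with rfl | rfl
  · rcases hmem b n3.symm hb with rfl | rfl
    · exact absurd rfl n2
    · exact key h'
  · rcases hmem b n3.symm hb with rfl | rfl
    · have := key (h'.swap hM)
      have h5 := hG.swap b a β h'.inn.tri
      change G (a, b, Cpx.ang ℓ v b a - β) = _ at h5
      rwa [h5] at this
    · exact absurd rfl n2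

open Classical in
/-- The map to the plane. -/
noncomputable def Phi (X : Cpx V) (ℓ : V → V → ℝ) (v : V) (G : V × V × ℝ → ℝ) (x : V → ℝ) : ℂ :=
  if h : ∃ s : V × V × ℝ × ℝ, Pol X ℓ x v s.1 s.2.1 s.2.2.1 s.2.2.2 then
    pl h.choose.2.2.1 (G (h.choose.1, h.choose.2.1, h.choose.2.2.2)) else 0

theorem Phi_eq (hM : X.Metric ℓ) (hG : Fld (LE X v) (Lθ ℓ v) G) (h : Pol X ℓ x v a b r α) :
    Phi X ℓ v G x = pl r (G (a, b, α)) := by
  have hex : ∃ s : V × V × ℝ × ℝ, Pol X ℓ x v s.1 s.2.1 s.2.2.1 s.2.2.2 := ⟨(a, b, r, α), h⟩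
  unfold Phi
  rw [dif_pos hex]
  exact pol_indep hM hG hex.choose_spec h

/-- The map is 1-Lipschitz on triangles. -/
theorem Phi_step (hM : X.Metric ℓ) (hG : Fld (LE X v) (Lθ ℓ v) G) (hx : Inn X x v a b)
    (hy : Inn X y v a b) : ‖Phi X ℓ v G x - Phi X ℓ v G y‖ ≤ ed ℓ x y v a b := by
  obtain ⟨r, α, h1⟩ := exists_pol hM hx
  obtain ⟨s, β, h2⟩ := exists_pol hM hy
  rw [Phi_eq hM hG h1, Phi_eq hM hG h2, ed_eq hM hx hy, h1.eq, h2.eq]
  refine norm_pl_sub_le h1.r0 h2.r0 ?_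
  have h3 := hG.move a b α β h1.pt h2.pt
  have hlt := ang_lt hM hx.tri
  have h4 : |α - β| ≤ π := abs_le.2 ⟨by linarith [h1.α0, h2.α1], by linarith [h2.α0, h1.α1]⟩
  have := h3.cos h4
  rwa [Real.cos_abs] at this

end Pool.Agent.Helper37.CX
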