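import Pool.Agent.Helper37.CX.Cell

/-!
# The metric space of a complex
-/

set_option autoImplicit false

namespace Pool.Agent.Helper37.CX

open Pool.Agent.Helper3.FJ Real Relation

variable {V : Type} {X : Cpx V} {ℓ : V → V → ℝ}

/-- Piecewise Euclidean complexes of dimension two which satisfy the link condition. -/
structure Cx (X : Cpx V) (ℓ : V → V → ℝ) : Prop where
  metric : X.Metric ℓ
  link : X.LinkCond ℓ
  fin : FinShapes X ℓ
  conn : ∀ u v, ReflTransGen X.adj u v
  pure : ∀ u v, X.adj u v → ∃ w, X.tri u v w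
  locfin : ∀ v, {u | X.adj v u}.Finite

/-- The points of the complex. -/
def Sp (_ : Cx X ℓ) : Type := {x : V → ℝ // ∃ a b c, Inn X x a b c}

/-- Chains of points such that neighbours lie in a common triangle. -/
inductive Ch (hX : Cx X ℓ) : Sp hX → Sp hX → ℝ → Prop
  | nil (x : Sp hX) : Ch hX x x 0
  | cons {x y z : Sp hX} {a b c : V} {L : ℝ} : Inn X x.1 a b c → Inn X y.1 a b c → Ch hX y z L →
      Ch hX x z (ed ℓ x.1 y.1 a b c + L)

variable {hX : Cx X ℓ}

theorem Ch.cast {x y : Sp hX} {L M : ℝ} (h : Ch hX x y L) (he : L = M) : Ch hX x y M := he ▸ h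

theorem Ch.of {x y : Sp hX} {a b c : V} (h1 : Inn X x.1 a b c) (h2 : Inn X y.1 a b c) :
    Ch hX x y (ed ℓ x.1 y.1 a b c) := (Ch.cons h1 h2 (Ch.nil y)).cast (add_zero _)

theorem Ch.append {x y z : Sp hX} {L M : ℝ} (h : Ch hX x y L) (h' : Ch hX y z M) :
    Ch hX x z (L + M) := by
  induction h with
  | nil => rwa [zero_add]
  | cons h1 h2 _ ih => rw [add_assoc]; exact Ch.cons h1 h2 (ih h')

theorem Ch.symm {x y : Sp hX} {L : ℝ} (h : Ch hX x y L) : Ch hX y x L := by
  induction h with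
  | nil => exact Ch.nil _
  | cons h1 h2 _ ih =>
    have := ih.append (Ch.of h2 h1)
    rwa [ed_comm, add_comm] at this

theorem Ch.nonneg {x y : Sp hX} {L : ℝ} (h : Ch hX x y L) : 0 ≤ L := by
  induction h with
  | nil => exact le_rfl
  | cons _ _ _ ih => exact add_nonneg ed_nonneg ih

open Classical in
/-- The function of a vertex. -/
noncomputable def vp (v : V) : V → ℝ := fun u => if u = v then 1 else 0

theorem vp_self (v : V) : vp v v = 1 := if_pos rfl

theorem vp_ne {u v : V} (h : u ≠ v) : vp v u = 0 := if_neg h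

theorem tri_ne (_ : X.Metric ℓ) {a b c : V} (h : X.tri a b c) : a ≠ b ∧ b ≠ c ∧ a ≠ c := by
  refine ⟨fun he => ?_, fun he => ?_, fun he => ?_⟩
  · exact X.adj_irrefl a (by have := X.tri_adj _ _ _ h; rwa [← he] at this)
  · exact X.adj_irrefl b (by have := X.tri_adj _ _ _ (X.tri_rot _ _ _ h); rwa [← he] at this)
  · exact X.adj_irrefl a (by have := X.tri_adj _ _ _ (tri_swap h); rwa [← he] at this)

theorem inn_vp (hM : X.Metric ℓ) {a b c : V} (h : X.tri a b c) : Inn X (vp a) a b c := by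
  obtain ⟨h1, h2, h3⟩ := tri_ne hM h
  refine ⟨h, ?_, ?_, ?_, ?_, fun v h4 _ _ => vp_ne h4⟩
  · rw [vp_self]; exact zero_le_one
  · rw [vp_ne h1.symm]
  · rw [vp_ne h3.symm]
  · rw [vp_self, vp_ne h1.symm, vp_ne h3.symm]; ring

/-- The point of a vertex. -/
noncomputable def vtx (hX : Cx X ℓ) {a b c : V} (h : X.tri a b c) : Sp hX :=
  ⟨vp a, a, b, c, inn_vp hX.metric h⟩

theorem exists_ch_vtx {a b c a' b' c' : V} (h : X.tri a b c) (h' : X.tri a' b' c') :
    ∃ L, Ch hX (vtx hX h) (vtx hX h') L := by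
  have key : ∀ v, ReflTransGen X.adj a v → ∀ b' c' (h' : X.tri v b' c'),
      ∃ L, Ch hX (vtx hX h) (vtx hX h') L := by
    intro v hv
    induction hv with
    | refl => exact fun b' c' h' => ⟨0, Ch.nil _⟩
    | @tail u v _ h1 ih =>
      intro b' c' h'
      obtain ⟨w, hw⟩ := hX.pure _ _ h1
      obtain ⟨L, hL⟩ := ih v w hw
      have e1 : Inn X (vtx hX hw).1 u v w := inn_vp hX.metric hw
      have e2 : Inn X (vtx hX h').1 u v w := (inn_vp hX.metric (X.tri_flip _ _ _ hw)).flip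
      exact ⟨_, hL.append (Ch.of e1 e2)⟩
  exact key a' (hX.conn a a') b' c' h'

theorem exists_ch (x y : Sp hX) : ∃ L, Ch hX x y L := by
  obtain ⟨a, b, c, h⟩ := x.2
  obtain ⟨a', b', c', h'⟩ := y.2
  obtain ⟨L, hL⟩ := exists_ch_vtx (hX := hX) h.tri h'.tri
  exact ⟨_, (Ch.of h (inn_vp hX.metric h.tri : Inn X (vtx hX h.tri).1 a b c)).append (hL.append
    (Ch.of (inn_vp hX.metric h'.tri : Inn X (vtx hX h'.tri).1 a' b' c') h'))⟩

/-- `K` is a Lipschitz constant for the coordinates. -/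
def Lip (X : Cpx V) (ℓ : V → V → ℝ) (K : ℝ) : Prop :=
  0 < K ∧ ∀ v a b, X.tri v a b → ∀ p q : ℝ, |p| + |q| ≤ K * ‖ch ℓ v a b p q‖

theorem Lip.step {K : ℝ} (hK : Lip X ℓ K) (hM : X.Metric ℓ) {x y : V → ℝ} {a b c : V}
    (hx : Inn X x a b c) (hy : Inn X y a b c) (u : V) :
    |x u - y u| ≤ K * ed ℓ x y a b c := by
  have key : ∀ v d e, Inn X x v d e → Inn X y v d e → |x v - y v| ≤ K * ed ℓ x y v d e := by
    intro v d e h1 h2
    rw [ed_eq hM h1 h2, ch_sub]
    refine le_trans ?_ (hK.2 v d e h1.tri _ _)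
    have h3 : x v - y v = -((x d - y d) + (x e - y e)) := by linarith [h1.sum, h2.sum]
    rw [h3, abs_neg]
    exact abs_add_le _ _
  by_cases h1 : u = a
  · subst h1
    exact key _ _ _ hx hy
  by_cases h2 : u = b
  · subst h2
    rw [← ed_flip hM.symm]
    exact key _ _ _ hx.flip hy.flip
  by_cases h3 : u = c
  · subst h3
    rw [← ed_rot hM.symm, ← ed_rot hM.symm]
    exact key _ _ _ hx.rot.rot hy.rot.rot
  · rw [hx.out u h1 h2 h3, hy.out u h1 h2 h3, sub_self, abs_zero]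
    exact mul_nonneg hK.1.le ed_nonneg

theorem Ch.lip {K : ℝ} (hK : Lip X ℓ K) {x y : Sp hX} {L : ℝ} (h : Ch hX x y L) (u : V) :
    |x.1 u - y.1 u| ≤ K * L := by
  induction h with
  | nil => simp
  | @cons x y z a b c L h1 h2 _ ih =>
    have h3 := hK.step hX.metric h1 h2 u
    have h4 := abs_sub_le (x.1 u) (y.1 u) (z.1 u)
    linarith

theorem Cx.exists_lip (hX : Cx X ℓ) : ∃ K, Lip X ℓ K := exists_lc hX.metric hX.fin

theorem ch_bddBelow (x y : Sp hX) : BddBelow {L | Ch hX x y L} := ⟨0, fun _ h => h.nonneg⟩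

theorem ch_inf_lt (x y : Sp hX) {η : ℝ} (hη : 0 < η) :
    ∃ L, Ch hX x y L ∧ L < sInf {L | Ch hX x y L} + η :=
  Real.lt_sInf_add_pos (exists_ch x y) hη

noncomputable instance : MetricSpace (Sp hX) where
  dist x y := sInf {L | Ch hX x y L}
  dist_self x := le_antisymm (csInf_le (ch_bddBelow x x) (Ch.nil x))
    (le_csInf ⟨0, Ch.nil x⟩ fun _ h => Ch.nonneg h)
  dist_comm x y := by
    congr 1
    ext L
    exact ⟨Ch.symm, Ch.symm⟩
  dist_triangle x y z := by
    refine le_of_forall_pos_le_add fun η hη => ?_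
    obtain ⟨L, h1, h2⟩ := ch_inf_lt x y (half_pos hη)
    obtain ⟨M, h3, h4⟩ := ch_inf_lt y z (half_pos hη)
    have := csInf_le (ch_bddBelow x z) (h1.append h3)
    linarith
  eq_of_dist_eq_zero {x y} h := by
    obtain ⟨K, hK⟩ := hX.exists_lip
    refine Subtype.ext (funext fun u => ?_)
    have h1 : |x.1 u - y.1 u| ≤ 0 := by
      refine le_of_forall_pos_le_add fun η hη => ?_
      obtain ⟨L, h2, h3⟩ := ch_inf_lt x y (div_pos hη hK.1)
      have h4 := h2.lip hK u
      have h : sInf {L | Ch hX x y L} = 0 := h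
      rw [h, zero_add, lt_div_iff₀ hK.1] at h3
      linarith
    exact sub_eq_zero.1 (abs_nonpos_iff.1 h1)

theorem dist_le {x y : Sp hX} {L : ℝ} (h : Ch hX x y L) : dist x y ≤ L :=
  csInf_le (ch_bddBelow x y) h

theorem exists_lt {x y : Sp hX} {r : ℝ} (h : dist x y < r) : ∃ L, Ch hX x y L ∧ L < r := by
  obtain ⟨L, h1, h2⟩ := ch_inf_lt x y (sub_pos.2 h)
  refine ⟨L, h1, ?_⟩
  have : sInf {L | Ch hX x y L} = dist x y := rfl
  linarith

theorem dist_lip {K : ℝ} (hK : Lip X ℓ K) (x y : Sp hX) (u : V) :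
    |x.1 u - y.1 u| ≤ K * dist x y := by
  refine le_of_forall_pos_le_add fun η hη => ?_
  obtain ⟨L, h2, h3⟩ := exists_lt (x := x) (y := y) (r := dist x y + η / K)
    (by have := div_pos hη hK.1; linarith)
  have h4 := h2.lip hK u
  have h5 : K * L ≤ K * (dist x y + η / K) := mul_le_mul_of_nonneg_left h3.le hK.1.le
  have h6 : K * (dist x y + η / K) = K * dist x y + η := by
    rw [mul_add, mul_div_cancel₀ _ hK.1.ne']
  linarith

theorem exists_third (x : Sp hX) : ∃ v, 1 / 3 ≤ x.1 v := by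
  obtain ⟨a, b, c, h⟩ := x.2
  by_contra hcon
  push Not at hcon
  have := hcon a
  have := hcon b
  have := hcon c
  linarith [h.sum]

/-- The complex is a complete metric space. -/
theorem complete (hX : Cx X ℓ) : CompleteSpace (Sp hX) := by
  obtain ⟨K, hK⟩ := hX.exists_lip
  refine Metric.complete_of_cauchySeq_tendsto fun s hs => ?_
  -- the limit function
  have hc : ∀ u, CauchySeq fun n => (s n).1 u := by
    intro u
    rw [Metric.cauchySeq_iff] at hs ⊢
    intro e he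
    obtain ⟨N, hN⟩ := hs (e / K) (div_pos he hK.1)
    refine ⟨N, fun m hm n hn => ?_⟩
    have h1 := hN m hm n hn
    rw [lt_div_iff₀ hK.1] at h1
    rw [Real.dist_eq]
    have := dist_lip hK (s m) (s n) u
    linarith
  choose y hy using fun u => cauchySeq_tendsto_of_complete (hc u)
  -- a vertex which lies in the carriers
  obtain ⟨N, hN⟩ := Metric.cauchySeq_iff.1 hs (1 / (6 * K)) (by have := hK.1; positivity)
  obtain ⟨v, hv⟩ := exists_third (s N)
  have hpos : ∀ n ≥ N, 0 < (s n).1 v := by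
    intro n hn
    have h1 := dist_lip hK (s N) (s n) v
    have h2 := hN N le_rfl n hn
    have h3 : K * dist (s N) (s n) < 1 / 6 := by
      have := mul_lt_mul_of_pos_left h2 hK.1
      rw [show K * (1 / (6 * K)) = 1 / 6 by field_simp [hK.1.ne']] at this
      exact this
    have := (abs_le.1 h1).2
    linarith
  have hcell : ∀ n ≥ N, ∃ p ∈ {u | X.adj v u} ×ˢ {u | X.adj v u}, Inn X (s n).1 v p.1 p.2 := by
    intro n hn
    obtain ⟨a, b, c, h⟩ := (s n).2
    obtain ⟨d, e, h1, -, -⟩ := h.cases (hpos n hn) hX.metric.symm (s n).1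
    exact ⟨(d, e), ⟨X.tri_adj _ _ _ h1.tri, X.tri_adj _ _ _ (tri_swap h1.tri)⟩, h1⟩
  -- one triangle for infinitely many members
  have hfin : ({u | X.adj v u} ×ˢ {u | X.adj v u}).Finite := (hX.locfin v).prod (hX.locfin v)
  obtain ⟨p, hp⟩ : ∃ p : V × V, ∃ᶠ n in Filter.atTop, Inn X (s n).1 v p.1 p.2 := by
    by_contra hcon
    push Not at hcon
    have h1 : ∀ p ∈ {u | X.adj v u} ×ˢ {u | X.adj v u},
        ∀ᶠ n in Filter.atTop, ¬ Inn X (s n).1 v p.1 p.2 := fun p _ => hcon p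
    have h2 := (Filter.eventually_all_finite hfin).2 h1
    obtain ⟨n, h3, h4⟩ := (h2.and (Filter.eventually_ge_atTop N)).exists
    obtain ⟨q, h5, h6⟩ := hcell n h4
    exact h3 q h5 h6
  obtain ⟨φ, hφ, hφ'⟩ := Filter.extraction_of_frequently_atTop hp
  have hlim : ∀ u, Filter.Tendsto (fun n => (s (φ n)).1 u) Filter.atTop (nhds (y u)) := fun u =>
    (hy u).comp hφ.tendsto_atTop
  have hyI : Inn X y v p.1 p.2 := by
    refine ⟨(hφ' 0).tri, ge_of_tendsto' (hlim _) fun n => (hφ' n).ha,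
      ge_of_tendsto' (hlim _) fun n => (hφ' n).hb, ge_of_tendsto' (hlim _) fun n => (hφ' n).hc,
      ?_, fun u h1 h2 h3 => ?_⟩
    · refine tendsto_nhds_unique (((hlim v).add (hlim p.1)).add (hlim p.2)) ?_
      refine tendsto_const_nhds.congr fun n => ?_
      exact (hφ' n).sum.symm
    · refine tendsto_nhds_unique (hlim u) ?_
      refine tendsto_const_nhds.congr fun n => ?_
      exact ((hφ' n).out u h1 h2 h3).symm
  obtain ⟨z, hz⟩ : ∃ z : Sp hX, z.1 = y := ⟨⟨y, v, p.1, p.2, hyI⟩, rfl⟩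
  refine ⟨z, tendsto_nhds_of_cauchySeq_of_subseq hs hφ.tendsto_atTop ?_⟩
  rw [tendsto_iff_dist_tendsto_zero]
  have hed : Filter.Tendsto (fun n => ed ℓ (s (φ n)).1 y v p.1 p.2) Filter.atTop (nhds 0) := by
    have h1 : Filter.Tendsto (fun n => qd ℓ (s (φ n)).1 y v p.1 p.2) Filter.atTop
        (nhds (qd ℓ y y v p.1 p.2)) := by
      unfold qd
      have t1 := (hlim v).sub_const (y v)
      have t2 := (hlim p.1).sub_const (y p.1)
      have t3 := (hlim p.2).sub_const (y p.2)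
      exact ((((t1.mul t2).mul_const _).add ((t2.mul t3).mul_const _)).add
        ((t1.mul t3).mul_const _)).neg
    have h2 := h1.sqrt
    have h3 : √(qd ℓ y y v p.1 p.2) = 0 := ed_self
    rw [h3] at h2
    exact h2
  refine squeeze_zero (fun _ => dist_nonneg) (fun n => ?_) hed
  refine dist_le ?_
  have := Ch.of (hX := hX) (x := s (φ n)) (y := z) (hφ' n) (by rw [hz]; exact hyI)
  rwa [hz] at this

end Pool.Agent.Helper37.CX
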